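import Pool.Agent.TH266.NS.Defs2

/-!
# NS-FIJ: products `g_i h ^ j` (job 4096 of helper266, written by helper643)
-/

set_option autoImplicit false

namespace Pool.Agent.TH266.NS

open Pool.Agent.TH603.EL Pool.Agent.TH880.NB Pool.Agent.TH176.Nag

namespace Fij

variable {F : Type} [Field F]

/-- combinations of the monomials of weight at most `e` -/
noncomputable def WW (x y : HR F) (r : ℕ) (e : ℤ) : AddSubmonoid (HR F) :=
  AddSubmonoid.closure {f | ∃ (c : HK F) (a b : ℕ), (a : ℤ) + r * b ≤ e ∧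
    f = incl c * (x ^ a * y ^ b)}

theorem WW_gen {x y : HR F} {r : ℕ} {e : ℤ} (c : HK F) (a b : ℕ) (h : (a : ℤ) + r * b ≤ e) :
    incl c * (x ^ a * y ^ b) ∈ WW x y r e :=
  AddSubmonoid.subset_closure ⟨c, a, b, h, rfl⟩

theorem WW_mul {x y : HR F} {r : ℕ} {e e' : ℤ} {f g : HR F} (hf : f ∈ WW x y r e)
    (hg : g ∈ WW x y r e') : f * g ∈ WW x y r (e + e') := by
  unfold WW at hf
  induction hf using AddSubmonoid.closure_induction with
  | mem f hf =>
    obtain ⟨c, a, b, h1, rfl⟩ := hf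
    unfold WW at hg
    induction hg using AddSubmonoid.closure_induction with
    | mem g hg =>
      obtain ⟨c', a', b', h2, rfl⟩ := hg
      have e1 : incl c * (x ^ a * y ^ b) * (incl c' * (x ^ a' * y ^ b')) =
          incl (c * c') * (x ^ (a + a') * y ^ (b + b')) := by
        rw [map_mul, pow_add, pow_add]
        ring
      rw [e1]
      refine WW_gen _ _ _ ?_
      push_cast
      linarith
    | zero => rw [mul_zero]; exact zero_mem _
    | add g g' _ _ h h' => rw [mul_add]; exact add_mem h h'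
  | zero => rw [zero_mul]; exact zero_mem _
  | add f f' _ _ h h' => rw [add_mul]; exact add_mem h h'

theorem WW_one (x y : HR F) (r : ℕ) : (1 : HR F) ∈ WW x y r 0 := by
  have h := WW_gen (x := x) (y := y) (r := r) (e := 0) (1 : HK F) 0 0 (by simp)
  simpa using h

theorem WW_pow {x y : HR F} {r : ℕ} {e : ℤ} {f : HR F} (hf : f ∈ WW x y r e) (n : ℕ) :
    f ^ n ∈ WW x y r (n * e) := by
  induction n with
  | zero => simpa using WW_one x y r
  | succ n ih =>
    rw [pow_succ]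
    have h := WW_mul ih hf
    have e1 : (n : ℤ) * e + e = ((n + 1 : ℕ) : ℤ) * e := by push_cast; ring
    rwa [e1] at h

theorem evU_single (x y : HR F) (m : ℤ × ℤ) (c : HK F) :
    evU x y (Finsupp.single m c) = incl c * (x ^ m.1.toNat * y ^ m.2.toNat) := by
  unfold evU
  rw [Finsupp.sum_single_index]
  rw [map_zero, zero_mul]

theorem evU_add (x y : HR F) (P Q : (ℤ × ℤ) →₀ HK F) :
    evU x y (P + Q) = evU x y P + evU x y Q := by
  unfold evU
  rw [Finsupp.sum_add_index']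
  · intro m
    rw [map_zero, zero_mul]
  · intro m a b
    rw [map_add, add_mul]

theorem exists_of_WW {x y : HR F} {r : ℕ} {e : ℤ} {f : HR F} (hf : f ∈ WW x y r e) :
    ∃ P : (ℤ × ℤ) →₀ HK F, (↑P.support : Set (ℤ × ℤ)) ⊆
      {m | 0 ≤ m.1 ∧ 0 ≤ m.2 ∧ m.1 + r * m.2 ≤ e} ∧ evU x y P = f := by
  classical
  unfold WW at hf
  induction hf using AddSubmonoid.closure_induction with
  | mem f hf =>
    obtain ⟨c, a, b, h1, rfl⟩ := hf
    refine ⟨Finsupp.single ((a : ℤ), (b : ℤ)) c, ?_, ?_⟩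
    · intro m hm
      have hm' := Finsupp.support_single_subset hm
      rw [Finset.mem_singleton] at hm'
      subst hm'
      exact ⟨by simp, by simp, h1⟩
    · rw [evU_single]
      simp
  | zero => exact ⟨0, by simp, by simp [evU]⟩
  | add f g _ _ h h' =>
    obtain ⟨P, hP, rfl⟩ := h
    obtain ⟨Q, hQ, rfl⟩ := h'
    refine ⟨P + Q, ?_, evU_add x y P Q⟩
    intro m hm
    rcases Finset.mem_union.1 (Finsupp.support_add hm) with h | h
    · exact hP h
    · exact hQ h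

theorem incl_single (a : ℝ) (c : F) :
    incl (HahnSeries.single a c) = HahnSeries.single a (AddMonoidAlgebra.single (0 : ℤ × ℤ) c) := by
  apply cf_ext
  intro b i j
  rw [cf_incl]
  unfold cf
  by_cases hb : b = a
  · subst hb
    simp only [HahnSeries.coeff_single_same]
    by_cases h : i = 0 ∧ j = 0
    · obtain ⟨rfl, rfl⟩ := h
      rw [if_pos ⟨rfl, rfl⟩, show ((0 : ℤ), (0 : ℤ)) = 0 from rfl]
      simp [AddMonoidAlgebra.coeff_single]
    · rw [if_neg h]
      have : (0 : ℤ × ℤ) ≠ (i, j) := by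
        intro h'
        rw [Prod.ext_iff] at h'
        exact h ⟨h'.1.symm, h'.2.symm⟩
      simp [AddMonoidAlgebra.coeff_single, this]
  · rw [HahnSeries.coeff_single_of_ne hb, HahnSeries.coeff_single_of_ne hb]
    simp

theorem incl_t : incl (HahnSeries.single 1 1 : HK F) = tz F 1 0 0 := incl_single 1 1

theorem hh_mem (x y : HR F) {r : ℕ} (hr : 2 ≤ r) : hh x y ∈ WW x y r (2 * r) := by
  have hr' : (2 : ℤ) ≤ r := by exact_mod_cast hr
  have e1 : hh x y = incl 1 * (x ^ 0 * y ^ 2) + incl (-1) * (x ^ 2 * y ^ 0) +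
      incl (-1) * (x ^ 3 * y ^ 0) + incl (HahnSeries.single 1 1 : HK F) * (x ^ 0 * y ^ 0) +
      incl (HahnSeries.single 1 1 : HK F) * (x ^ 1 * y ^ 0) := by
    unfold hh
    rw [incl_t, map_neg, map_one]
    ring
  rw [e1]
  refine add_mem (add_mem (add_mem (add_mem ?_ ?_) ?_) ?_) ?_
  · exact WW_gen _ _ _ (by push_cast; linarith)
  · exact WW_gen _ _ _ (by push_cast; linarith)
  · exact WW_gen _ _ _ (by push_cast; linarith)
  · exact WW_gen _ _ _ (by push_cast; linarith)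
  · exact WW_gen _ _ _ (by push_cast; linarith)

theorem gg_mem (x y : HR F) {r : ℕ} (hr : 2 ≤ r) {E : ℕ} (a : ℕ → HK F) :
    gg x y (2 * E) a ∈ WW x y r (E + r - 2) := by
  have hr' : (2 : ℤ) ≤ r := by exact_mod_cast hr
  unfold gg
  refine sum_mem fun m hm => ?_
  unfold EE at hm
  rw [Finset.mem_erase, Finset.mem_range] at hm
  obtain ⟨hm1, hm2⟩ := hm
  unfold bb
  split_ifs with h
  · have h1 := WW_gen (x := x) (y := y) (r := r) (e := E + r - 2) (a m) (m / 2) 0 (by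
      have : ((m / 2 : ℕ) : ℤ) ≤ E := by
        have : m / 2 ≤ E := by omega
        exact_mod_cast this
      push_cast at this ⊢
      linarith)
    simpa using h1
  · have h0 : m % 2 = 1 := Nat.odd_iff.1 (Nat.not_even_iff_odd.1 h)
    have h1 := WW_gen (x := x) (y := y) (r := r) (e := E + r - 2) (a m) ((m - 3) / 2) 1 (by
      have : (m - 3) / 2 + 2 ≤ E := by omega
      have : (((m - 3) / 2 : ℕ) : ℤ) + 2 ≤ E := by exact_mod_cast this
      simp only [Nat.cast_one, mul_one]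
      linarith)
    simpa using h1

theorem low_pow_sub {x x0 : HR F} {s : ℝ} (hs : 0 ≤ s) (h : Low (x - x0) s) (h0 : Low x0 0)
    (k : ℕ) : Low (x ^ k - x0 ^ k) s := by
  have hx : Low x 0 := by
    have h1 := (h.mono hs).add h0
    simpa using h1
  induction k with
  | zero => simpa using low_zero (B := Pool.Agent.TH603.EL.Lau F) s
  | succ k ih =>
    have e1 : x ^ (k + 1) - x0 ^ (k + 1) = x * (x ^ k - x0 ^ k) + (x - x0) * x0 ^ k := by ring
    rw [e1]
    have h1 := hx.mul ih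
    have h2 := h.mul (h0.pow_zero' k)
    rw [zero_add] at h1
    rw [add_zero] at h2
    exact h1.add h2

theorem low_bb_sub {τ s : ℝ} (T : Tube F τ s) (hs : 0 ≤ s) (m : ℕ) :
    Low (bb T.x T.y m - bb T.x0 T.y0 m) s := by
  have hy0 : Low T.y 0 := by
    have h1 := (T.low_y.mono hs).add T.low_y0
    simpa using h1
  unfold bb
  split_ifs
  · exact low_pow_sub hs T.low_x T.low_x0 _
  · have e1 : T.x ^ ((m - 3) / 2) * T.y - T.x0 ^ ((m - 3) / 2) * T.y0 =
        (T.x ^ ((m - 3) / 2) - T.x0 ^ ((m - 3) / 2)) * T.y +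
          T.x0 ^ ((m - 3) / 2) * (T.y - T.y0) := by ring
    rw [e1]
    have h1 := (low_pow_sub hs T.low_x T.low_x0 ((m - 3) / 2)).mul hy0
    have h2 := (T.low_x0.pow_zero' ((m - 3) / 2)).mul T.low_y
    rw [add_zero] at h1
    rw [zero_add] at h2
    exact h1.add h2

end Fij

/-- NS-FIJ -/
theorem exists_fij {F : Type} [Field F] {τ s : ℝ} (T : Tube F τ s) (h0 : 0 < τ) (h1 : τ < 1)
    {r e : ℕ} (hr : 2 ≤ r) (hs : (2 * e : ℝ) < s) {m : ℤ × ℤ} (hm : m ∈ Tri r e τ)
    (hex : ∀ (M : ℕ), 1 ≤ M → ∀ i : ℤ, -((M : ℝ) * τ) < i → (i : ℝ) < M * (1 - τ) →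
      ∃ a : ℕ → HK F, (∀ m ∈ EE M, Low (a m) (-(M : ℝ))) ∧ Low (gg T.x0 T.y0 M a) 0 ∧
      (gg T.x0 T.y0 M a).coeff 0 = AddMonoidAlgebra.single (i, 0) 1) :
    ∃ P : (ℤ × ℤ) →₀ HK F, (↑P.support : Set (ℤ × ℤ)) ⊆ Wtd r e ∧ Low (evU T.x T.y P) 0 ∧
      (evU T.x T.y P).coeff 0 = AddMonoidAlgebra.single m 1 := by
  obtain ⟨i, j⟩ := m
  obtain ⟨hj, hl, hu⟩ := hm
  simp only at hj hl hu
  obtain ⟨k, rfl⟩ := Int.eq_ofNat_of_zero_le hj
  have hpos : (0 : ℝ) < (e : ℝ) - 2 * r * ((k : ℤ) : ℝ) := by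
    nlinarith
  have hlt : 2 * r * k < e := by
    have : (2 * r * k : ℝ) < e := by
      have h2 : (((k : ℤ)) : ℝ) = k := by simp
      rw [h2] at hpos
      linarith
    exact_mod_cast this
  obtain ⟨E, hE⟩ : ∃ E : ℕ, e = E + 2 * r * k := ⟨e - 2 * r * k, by omega⟩
  have hE1 : 1 ≤ E := by omega
  have hER : (e : ℝ) = E + 2 * r * k := by rw [hE]; push_cast; ring
  have hEr : (e : ℝ) - 2 * r * ((k : ℤ) : ℝ) = E := by
    rw [hER]
    push_cast
    ring
  rw [hEr] at hl hu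
  obtain ⟨a, ha1, ha2, ha3⟩ := hex (2 * E) (by omega) i (by push_cast; linarith)
    (by push_cast; linarith)
  have hs0 : (0 : ℝ) ≤ s := by
    have : (0 : ℝ) ≤ e := Nat.cast_nonneg e
    linarith
  have hEe : (E : ℝ) ≤ e := by
    rw [hER]
    have : (0 : ℝ) ≤ 2 * r * k := by positivity
    linarith
  have hsM : 0 < s - 2 * (E : ℝ) := by linarith
  -- the sections
  have hG : Low (gg T.x T.y (2 * E) a - gg T.x0 T.y0 (2 * E) a) (s - 2 * (E : ℝ)) := by
    have e1 : gg T.x T.y (2 * E) a - gg T.x0 T.y0 (2 * E) a =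
        ∑ m ∈ EE (2 * E), incl (a m) * (bb T.x T.y m - bb T.x0 T.y0 m) := by
      unfold gg
      rw [← Finset.sum_sub_distrib]
      exact Finset.sum_congr rfl fun m _ => by ring
    rw [e1]
    refine Low.sum _ _ fun m hm => ?_
    have h2 := (ha1 m hm).incl.mul (Fij.low_bb_sub T hs0 m)
    refine h2.mono (le_of_eq ?_)
    push_cast
    ring
  have hG0 : Low (gg T.x T.y (2 * E) a) 0 := by
    have h2 := (hG.mono hsM.le).add ha2
    simpa using h2
  have hGc : (gg T.x T.y (2 * E) a).coeff 0 = AddMonoidAlgebra.single (i, 0) 1 := by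
    have h2 : (gg T.x T.y (2 * E) a - gg T.x0 T.y0 (2 * E) a).coeff 0 = 0 := hG 0 hsM
    rw [HahnSeries.coeff_sub, ha3, sub_eq_zero] at h2
    exact h2
  -- the equation
  obtain ⟨H, hH⟩ : ∃ H : HR F, H =
    incl (HahnSeries.single (-(1 + s)) (-1 : F)) * hh T.x T.y := ⟨_, rfl⟩
  have hu : Low (incl (HahnSeries.single (-(1 + s)) (-1 : F))) (-(1 + s)) :=
    (low_single (-(1 + s)) (-1 : F)).incl
  have hH0 : Low H 0 := by
    have h2 := hu.mul T.low_h
    rw [neg_add_cancel] at h2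
    rwa [hH]
  have hHc : H.coeff 0 = AddMonoidAlgebra.single (0, 1) 1 := by
    have h2 := hu.coeff_mul T.low_h
    rw [neg_add_cancel, Fij.incl_single, HahnSeries.coeff_single_same, T.lead_h,
      AddMonoidAlgebra.single_mul_single, ← Fij.incl_single, ← hH] at h2
    rw [h2]
    simp
  have hf0 : Low (H ^ k * gg T.x T.y (2 * E) a) 0 := by
    have h2 := (hH0.pow_zero' k).mul hG0
    rwa [add_zero] at h2
  have hpow : ∀ n : ℕ, (AddMonoidAlgebra.single ((0 : ℤ), (1 : ℤ)) (1 : F)) ^ n =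
      AddMonoidAlgebra.single ((0 : ℤ), (n : ℤ)) (1 : F) := by
    intro n
    rw [AddMonoidAlgebra.single_pow]
    simp
  have hfc : (H ^ k * gg T.x T.y (2 * E) a).coeff 0 =
      AddMonoidAlgebra.single (i, (k : ℤ)) 1 := by
    have h2 := (hH0.pow_zero' k).coeff_mul hG0
    have h3 := hH0.coeff_pow k
    rw [mul_zero] at h3
    rw [add_zero, h3, hHc, hGc, hpow, AddMonoidAlgebra.single_mul_single] at h2
    rw [h2]
    simp
  have hmem : H ^ k * gg T.x T.y (2 * E) a ∈ Fij.WW T.x T.y r ((e : ℤ) + r - 2) := by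
    have g1 : incl (HahnSeries.single (-(1 + s)) (-1 : F)) ∈ Fij.WW T.x T.y r 0 := by
      have h2 := Fij.WW_gen (x := T.x) (y := T.y) (r := r) (e := 0)
        (HahnSeries.single (-(1 + s)) (-1 : F)) 0 0 (by simp)
      simpa using h2
    have g2 := Fij.WW_mul g1 (Fij.hh_mem T.x T.y hr)
    rw [← hH] at g2
    have g3 := Fij.WW_mul (Fij.WW_pow g2 k) (Fij.gg_mem T.x T.y hr (E := E) a)
    have e2 : (k : ℤ) * (0 + 2 * r) + (E + r - 2) = (e : ℤ) + r - 2 := by
      rw [hE]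
      push_cast
      ring
    rwa [e2] at g3
  obtain ⟨P, hP1, hP2⟩ := Fij.exists_of_WW hmem
  refine ⟨P, hP1, ?_, ?_⟩
  · rw [hP2]; exact hf0
  · rw [hP2]; exact hfc

end Pool.Agent.TH266.NS
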